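import Pool.Agent.N803.AXG.PathW
import Pool.Agent.TH563.CV.Der
import Pool.Agent.N592.VS.Mirg
import Pool.Agent.N839.VS.Sym
import Pool.Agent.N561.AX.StmG

/-!
# Project AX (helper561), job AXG/2: the complex volume of the mirror image
-/

set_option autoImplicit false

namespace Pool.Agent.N803.AXG

open Filter Topology Metric Set
open Pool.Agent.W711.HT hiding XX
open Pool.Agent.W709.VC (Dv)
open Pool.Agent.W864.AR (t1 t2)
open Pool.Agent.TH609.Z (ex)
open Pool.Agent.TH609.UV (fe)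
open Pool.Agent.W583.HTP (half_re)
open Pool.Agent.N402.VE
open Pool.Agent.N561 (dst sg GG SGP SW SR HW EFW S_SGP S_EDGE S_MIRG GEOS mir2 TH)
open Pool.Agent.N561.AX (S_GPS GEOC S_MIRGX)
open Pool.Agent.N592.VS (rf conj_two rf_rf rf_re rf_im norm_rf rf_sub cos_rf mir2_eq deriv_m1
  deriv_m2 Lg_lt Lg_mir hv_mir ex_conj ex_rf sw_mir ms_zero ms_phi cont_ms)
open Pool.Agent.TH563.CV (GP z1 z2)
open ComplexConjugate
open scoped Real

/-- the data of the mirror image, explicit form (adapted from `N592/VS/Mirg.lean`) -/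
theorem mir_ef (hG : S_SGP) {φ₀ : ℂ} (hφ₀ : φ₀ ∈ GG) (hre : 0 ≤ φ₀.re)
    (hs : Real.exp (φ₀.im / 2) * Real.sin (φ₀.re / 2) < 1) :
    ∃ g : ℝ, 0 < g ∧ ∀ ψ φ : ℂ, ‖ψ‖ ≤ g → ‖φ - rf φ₀‖ ≤ g →
      EFW (mir2 sg) ψ φ (conj (dst (rf ψ) (rf φ))) := by
  obtain ⟨g₁, hg₁, hE⟩ := edge hG φ₀ hφ₀ hre
  obtain ⟨r, c, C, hS⟩ := hG φ₀ hφ₀
  have hpi := Real.pi_gt_three
  have hr0 := hS.hr.1
  obtain ⟨q1, q2, q3, q4⟩ := hφ₀
  have q1' := abs_lt.1 q1
  set t := φ₀ / 2 with ht
  have htp : Pt t := by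
    refine ⟨?_, ?_, ?_⟩
    · rw [ht, half_re]; linarith
    · rw [ht, half_re]; linarith
    · rw [ht, half_im]; linarith
  have hφt : φ₀ = 2 * t := by rw [ht]; ring
  have hst : Real.exp t.im * Real.sin t.re < 1 := by
    rw [ht, half_im, half_re]; exact hs
  have m0 : (0 : ℂ) ∈ Rc r r := by
    constructor <;> simpa using hr0
  have mφ : φ₀ ∈ ball φ₀ r := mem_ball_self hr0
  have hbd : dst 0 φ₀ = 1 / π * Complex.arctan (Complex.cos t) := by rw [dst_zero]
  have hX : ex (2 * π * dst 0 φ₀) =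
      (1 + Complex.cos t * Complex.I) / (1 - Complex.cos t * Complex.I) := by
    rw [hbd]; exact ex_arctan htp
  have hopen : Rc r r ×ˢ ball φ₀ r ∈ 𝓝 ((0 : ℂ), φ₀) :=
    ((Rc_open r r).prod isOpen_ball).mem_nhds ⟨m0, mφ⟩
  have hdc : ContinuousAt (fun p : ℂ × ℂ => dst p.1 p.2) ((0 : ℂ), φ₀) :=
    (hS.dan.differentiableAt hopen).continuousAt
  have huc : ContinuousAt (fun p : ℂ × ℂ => 2 * π * dst p.1 p.2) ((0 : ℂ), φ₀) :=
    continuousAt_const.mul hdc
  have c1 : ContinuousAt (fun p : ℂ × ℂ => p.1) ((0 : ℂ), φ₀) := continuousAt_fst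
  have c2 : ContinuousAt (fun p : ℂ × ℂ => p.2) ((0 : ℂ), φ₀) := continuousAt_snd
  have v1 := cont_ms huc c1 (by
    simp only
    rw [hX]
    exact ms_zero htp)
  have v2 := cont_ms huc c2 (by
    simp only
    rw [hX, hφt]
    exact ms_phi htp hst)
  obtain ⟨ε, hε, hb⟩ := Metric.eventually_nhds_iff.1 (v1.and v2)
  refine ⟨min (min g₁ (ε / 2)) (1 / 10), lt_min (lt_min hg₁ (by linarith)) (by norm_num),
    fun ψ φ n1 n2 => ?_⟩
  have n1' : ‖rf ψ‖ ≤ min (min g₁ (ε / 2)) (1 / 10) := by rw [norm_rf]; exact n1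
  have n2' : ‖rf φ - φ₀‖ ≤ min (min g₁ (ε / 2)) (1 / 10) := by
    have : rf φ - φ₀ = rf (φ - rf φ₀) := by rw [← rf_sub, rf_rf]
    rw [this, norm_rf]
    exact n2
  have a1 := n1'.trans ((min_le_left _ _).trans (min_le_left _ _))
  have a2 := n2'.trans ((min_le_left _ _).trans (min_le_left _ _))
  have b1 := n1'.trans ((min_le_left _ _).trans (min_le_right _ _))
  have b2 := n2'.trans ((min_le_left _ _).trans (min_le_right _ _))
  have e1 := n1'.trans (min_le_right _ _)
  have e2 := n2'.trans (min_le_right _ _)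
  have hef := hE (rf ψ) (rf φ) a1 a2
  have hd : dist (rf ψ, rf φ) ((0 : ℂ), φ₀) < ε := by
    rw [Prod.dist_eq]
    simp only [dist_eq_norm, sub_zero]
    rw [max_lt_iff]
    exact ⟨by linarith, by linarith⟩
  obtain ⟨k1, k2⟩ := hb hd
  simp only at k1 k2
  have hw0 := hef.hg
  obtain ⟨u, hu⟩ : ∃ u : ℂ, u = 2 * π * dst (rf ψ) (rf φ) := ⟨_, rfl⟩
  have huc' : 2 * π * conj (dst (rf ψ) (rf φ)) = conj u := by
    rw [hu]
    simp [conj_two]
  have hd1 := hef.d1
  have hd2 := hef.d2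
  have hval := hef.val
  rw [← hu] at k1 k2 hw0 hd1 hd2 hval
  have s1 := sw_mir k1
  have s2 := sw_mir k2
  rw [rf_rf] at s1 s2
  have l1 := Lg_mir (Lg_lt hw0)
  have hw0' : HW (rf φ) (rf ψ) u := ⟨hw0.sd', hw0.sd, by rw [add_right_comm]; exact hw0.den,
    by rw [hw0.eq, mul_comm, add_right_comm], hw0.sr', hw0.sr⟩
  have l2 := Lg_mir (Lg_lt hw0')
  rw [rf_rf] at l1 l2
  have cψ : Complex.cos ψ = conj (Complex.cos (rf ψ)) := by rw [← cos_rf, rf_rf]
  have cφ : Complex.cos φ = conj (Complex.cos (rf φ)) := by rw [← cos_rf, rf_rf]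
  have rψ : |ψ.re| < π := by
    have h1 := (Complex.abs_re_le_norm (rf ψ)).trans e1
    rw [rf_re, abs_neg] at h1
    linarith
  have rφ : |φ.re| < π := by
    have h1 := (Complex.abs_re_le_norm (rf φ - φ₀)).trans e2
    rw [Complex.sub_re, rf_re, abs_le] at h1
    rw [abs_lt]
    constructor <;> linarith [h1.1, h1.2]
  have hHE : HE ψ φ (conj u) := by
    refine ⟨s1, s2, ?_, ?_, rψ, rφ⟩
    · intro h0
      apply hw0.den
      have h1 := congrArg conj h0
      rw [cψ, cφ] at h1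
      simpa [conj_two] using h1
    · rw [Complex.cos_conj, hw0.eq, cψ, cφ]
      simp [conj_two]
  refine ⟨?_, ?_, ?_, ?_⟩
  · rw [huc']
    exact hw hHE
  · rw [deriv_m1, hd1, huc', l1]
    simp [conj_two]
  · rw [deriv_m2, hd2, huc', l2]
    simp [conj_two]
  · rw [huc', l1, l2, mir2_eq, Complex.conj_re]
    have e3 : hv ψ φ (conj u) = hv (rf ψ) (rf φ) u := by
      rw [← hv_mir (rf ψ) (rf φ) u, rf_rf, rf_rf]
    rw [e3]
    have e4 : (-conj (Lg u (rf ψ))).im = (Lg u (rf ψ)).im := by simp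
    have e5 : (-conj (Lg u (rf φ))).im = (Lg u (rf φ)).im := by simp
    rw [e4, e5]
    rw [rf_im, rf_im] at hval
    exact hval


lemma rf_zero : rf 0 = 0 := by simp [rf]

lemma rf_line (a b : ℂ) (t : ℝ) : rf (a + t * b) = rf a + t * rf b := by
  simp [rf]
  ring

/-- the difference of the two sides for the mirror image -/
noncomputable def GQ (ψ φ : ℂ) : ℂ :=
  GP ψ φ (2 * π * conj (dst (rf ψ) (rf φ))) (mir2 sg ψ φ)

lemma line_deriv (a b : ℂ) (t : ℝ) : HasDerivAt (fun t : ℝ => a + (t : ℂ) * b) b t := by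
  simpa using ((Complex.ofRealCLM.hasDerivAt (x := t)).mul_const b).const_add a

/-- `GQ` is constant along a segment -/
theorem seg {a b a' b' : ℂ}
    (h : ∀ t ∈ Icc (0 : ℝ) 1, (∃ (φ₀ : ℂ) (r c C : ℝ), SGP φ₀ r c C ∧ rf (a + t * b) ∈ Rc r r ∧
      rf (a' + t * b') ∈ ball φ₀ r) ∧ EFW (mir2 sg) (a + t * b) (a' + t * b')
        (conj (dst (rf (a + t * b)) (rf (a' + t * b'))))) :
    GQ (a + b) (a' + b') = GQ a a' := by
  have key := pathW Pool.Agent.TH563.CV.der zero_le_one (p := fun t : ℝ => a + (t : ℂ) * b)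
    (q := fun t : ℝ => a' + (t : ℂ) * b')
    (U := fun t : ℝ => 2 * π * conj (dst (rf (a + t * b)) (rf (a' + t * b'))))
    (S := fun t : ℝ => mir2 sg (a + t * b) (a' + t * b'))
    (p' := fun _ => b) (q' := fun _ => b') (fun t ht => (h t ht).2.hg)
    (fun t _ => (line_deriv a b t).hasDerivWithinAt)
    (fun t _ => (line_deriv a' b' t).hasDerivWithinAt) ?_ ?_
  · simp only [Complex.ofReal_one, one_mul, Complex.ofReal_zero, zero_mul, add_zero] at key
    exact key
  · intro t ht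
    obtain ⟨⟨φ₀, r, c, C, hS, m1, m2⟩, -⟩ := h t ht
    have hopen : IsOpen (Rc r r ×ˢ ball φ₀ r) := (Rc_open _ _).prod isOpen_ball
    have hγ : HasDerivAt (fun t : ℝ => (rf (a + t * b), rf (a' + t * b'))) (rf b, rf b') t := by
      have e1 : (fun t : ℝ => (rf (a + t * b), rf (a' + t * b'))) =
          fun t : ℝ => (rf a + t * rf b, rf a' + t * rf b') := by
        funext t
        rw [rf_line, rf_line]
      rw [e1]
      exact (line_deriv _ _ t).prodMk (line_deriv _ _ t)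
    have h3 : DifferentiableAt ℂ (fun p : ℂ × ℂ => dst p.1 p.2)
        (rf (a + t * b), rf (a' + t * b')) :=
      hS.dan.differentiableAt (hopen.mem_nhds ⟨m1, m2⟩)
    have h4 := (h3.restrictScalars ℝ).comp t hγ.differentiableAt
    have h5 : DifferentiableAt ℝ (fun t : ℝ => conj (dst (rf (a + t * b)) (rf (a' + t * b')))) t :=
      (Complex.conjCLE.differentiableAt (x := _)).comp t h4
    exact (h5.const_mul (2 * (π : ℂ))).differentiableWithinAt
  · intro t ht
    obtain ⟨⟨φ₀, r, c, C, hS, m1, m2⟩, hE⟩ := h t ht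
    have hopen : IsOpen (Rc r r ×ˢ ball φ₀ r) := (Rc_open _ _).prod isOpen_ball
    have hγ : HasDerivAt (fun t : ℝ => (rf (a + t * b), rf (a' + t * b'))) (rf b, rf b') t := by
      have e1 : (fun t : ℝ => (rf (a + t * b), rf (a' + t * b'))) =
          fun t : ℝ => (rf a + t * rf b, rf a' + t * rf b') := by
        funext t
        rw [rf_line, rf_line]
      rw [e1]
      exact (line_deriv _ _ t).prodMk (line_deriv _ _ t)
    set P := rf (a + t * b) with hP
    set Q := rf (a' + t * b') with hQ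
    have h3 : HasFDerivAt (fun p : ℂ × ℂ => sg p.1 p.2) _ (P, Q) :=
      (hS.san.differentiableAt (hopen.mem_nhds ⟨m1, m2⟩)).hasFDerivAt
    set F := fderiv ℂ (fun p : ℂ × ℂ => sg p.1 p.2) (P, Q) with hF
    have f1 : F (1, 0) = deriv (fun w => sg w Q) P := by
      have a1 : HasDerivAt (fun z : ℂ => (z, Q)) ((1 : ℂ), (0 : ℂ)) P :=
        (hasDerivAt_id _).prodMk (hasDerivAt_const _ _)
      have a2 := HasFDerivAt.comp_hasDerivAt (l := fun p : ℂ × ℂ => sg p.1 p.2) P h3 a1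
      exact a2.deriv.symm
    have f2 : F (0, 1) = deriv (fun w => sg P w) Q := by
      have a1 : HasDerivAt (fun z : ℂ => (P, z)) ((0 : ℂ), (1 : ℂ)) Q :=
        (hasDerivAt_const _ _).prodMk (hasDerivAt_id _)
      have a2 := HasFDerivAt.comp_hasDerivAt (l := fun p : ℂ × ℂ => sg p.1 p.2) Q h3 a1
      exact a2.deriv.symm
    have a3 := HasFDerivAt.comp_hasDerivAt (l := fun p : ℂ × ℂ => sg p.1 p.2) t
      (h3.restrictScalars ℝ) hγ
    have a4 := (Complex.conjCLE : ℂ ≃L[ℝ] ℂ).toContinuousLinearMap.hasFDerivAt.comp_hasDerivAt t a3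
    have d1 := hE.d1
    have d2 := hE.d2
    rw [deriv_m1, ← hP, ← hQ, ← f1] at d1
    rw [deriv_m2, ← hP, ← hQ, ← f2] at d2
    refine (a4.congr_deriv ?_).hasDerivWithinAt
    have e : ((rf b, rf b') : ℂ × ℂ) = rf b • ((1 : ℂ), (0 : ℂ)) + rf b' • ((0 : ℂ), (1 : ℂ)) := by
      ext <;> simp
    rw [ContinuousLinearMap.coe_restrictScalars', e, map_add, map_smul, map_smul]
    have g1 : conj (F (1, 0)) = (1 / (2 * π)) * Lg (2 * π * conj (dst P Q)) (a + t * b) := by
      linear_combination (-1) * d1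
    have g2 : conj (F (0, 1)) = (1 / (2 * π)) * Lg (2 * π * conj (dst P Q)) (a' + t * b') := by
      linear_combination (-1) * d2
    show conj (rf b • F (1, 0) + rf b' • F (0, 1)) = _
    rw [smul_eq_mul, smul_eq_mul, map_add, map_mul, map_mul, g1, g2]
    simp only [rf, map_neg, Complex.conj_conj]
    ring

/-- uniqueness of `ex u` at the point `ψ = 0` -/
lemma ex_unique {φ u u' : ℂ} (h : HW 0 φ u) (h' : HW 0 φ u') : ex u = ex u' := by
  have hX : ex u ≠ 0 := Complex.exp_ne_zero _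
  have hX' : ex u' ≠ 0 := Complex.exp_ne_zero _
  have c (z : ℂ) : Complex.cos z = (ex z + (ex z)⁻¹) / 2 := by
    rw [Complex.cos, ex, ← Complex.exp_neg]
    congr 3
    · ring
    · ring
  have e1 : Complex.cos u = Complex.cos u' := by rw [h.eq, h'.eq]
  rw [c, c] at e1
  have i1 : ∀ v : ℂ, HW 0 φ v → ((ex v)⁻¹).im < 0 := by
    intro v hv
    have := hv.sd.im2
    have hv0 : ex v ≠ 0 := Complex.exp_ne_zero _
    have e : t2 (ex v) (ex 0) = (1 - (ex v)⁻¹) / ((2 : ℝ) : ℂ) := by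
      have e0 : ex 0 = 1 := by simp [ex]
      rw [t2, e0]
      push_cast
      field_simp
      ring
    rw [e, Complex.div_ofReal_im, Complex.sub_im, Complex.one_im] at this
    linarith
  have j1 := i1 u h
  have j2 := i1 u' h'
  generalize ex u = X at *
  generalize ex u' = Y at *
  by_contra hne
  have h1 : X * Y = 1 := by
    have h2 : (X - Y) * (X * Y - 1) = 0 := by
      field_simp at e1
      linear_combination e1
    rcases mul_eq_zero.1 h2 with h3 | h3
    · exact absurd (sub_eq_zero.1 h3) hne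
    · linear_combination h3
  have h2 : X⁻¹ = Y := by
    rw [inv_eq_of_mul_eq_one_right h1]
  have h3 : Y⁻¹ = X := by
    rw [inv_eq_of_mul_eq_one_left h1]
  rw [h2] at j1
  rw [h3, ← Complex.conj_conj X] at j2
  have h4 : 0 < Complex.normSq X := Complex.normSq_pos.2 hX
  have h5 : Y.im = -X.im / Complex.normSq X := by rw [← h2, Complex.inv_im]
  rw [h5, div_lt_iff₀ h4, zero_mul] at j1
  rw [Complex.conj_conj] at j2
  linarith

lemma dst_slit {φ₀ : ℂ} (hφ : φ₀ ∈ GG) :
    1 - Complex.sin ((0 : ℂ) / 2) ^ 2 * Complex.sin (φ₀ / 2) ^ 2 ∈ Complex.slitPlane ∧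
    0 < (Complex.cos ((0 : ℂ) / 2) * Complex.cos (φ₀ / 2) /
      (1 - Complex.sin ((0 : ℂ) / 2) ^ 2 * Complex.sin (φ₀ / 2) ^ 2) ^ (1 / 2 : ℂ)).re := by
  have hπ := Real.pi_gt_three
  rw [zero_div, Complex.sin_zero, Complex.cos_zero]
  simp only [ne_eq, OfNat.ofNat_ne_zero, not_false_eq_true, zero_pow, zero_mul, sub_zero,
    Complex.one_cpow, div_one, one_mul]
  refine ⟨Complex.one_mem_slitPlane, ?_⟩
  rw [Pool.Agent.N839.VS.cos_re, Pool.Agent.N839.VS.half_re]
  have h1 := hφ.1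
  have h2 := abs_lt.1 h1
  have := Real.cos_pos_of_mem_Ioo (x := φ₀.re / 2) ⟨by linarith, by linarith⟩
  have := Real.cosh_pos (φ₀ / 2).im
  positivity

/-- on the imaginary axis -/
theorem base (hG : S_SGP) (hP : S_GPS) {y : ℝ} (hy : (y : ℂ) * Complex.I ∈ GG) :
    GQ 0 (y * Complex.I) = -(π : ℂ) ^ 2 / 2 := by
  have hre : 0 ≤ ((y : ℂ) * Complex.I).re := by simp
  obtain ⟨r, c, C, hS⟩ := hG _ hy
  have hr0 := hS.hr.1
  have m0 : (0 : ℂ) ∈ Rc r r := by
    constructor <;> simpa using hr0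
  have mφ : (y : ℂ) * Complex.I ∈ ball ((y : ℂ) * Complex.I) r := mem_ball_self hr0
  obtain ⟨g₁, hg₁, hE⟩ := edge hG _ hy hre
  have hE0 := hE 0 (y * Complex.I) (by simpa using hg₁.le) (by simpa using hg₁.le)
  obtain ⟨g₂, hg₂, hE2⟩ := hP _ hy hre
  obtain ⟨δ, hδ, hgp⟩ := hE2 0 (y * Complex.I) (by simpa using hg₂.le) (by simpa using hg₂.le)
  have hu := ex_unique hE0.hg hδ.hg
  have hφ : rf ((y : ℂ) * Complex.I) = y * Complex.I := by simp [rf]
  have hc : -conj ((y : ℂ) * Complex.I) = y * Complex.I := hφ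
  obtain ⟨s1, s2⟩ := dst_slit hy
  have hd : conj (dst 0 (y * Complex.I)) = dst 0 (y * Complex.I) := by
    have := Pool.Agent.N839.VS.dst_conj s1 s2.ne'
    rw [hc, map_zero] at this
    exact this.symm
  obtain ⟨b1, b2, b3⟩ := hS.dpos 0 m0 _ mφ
  have hdom : Pool.Agent.N839.VS.Dom 0 (y * Complex.I) (dst 0 (y * Complex.I)) := by
    refine ⟨b1, b2, ?_, b3⟩
    have := hy.1
    have := Real.pi_gt_three
    linarith
  have hs : conj (sg 0 (y * Complex.I)) = sg 0 (y * Complex.I) := by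
    have := Pool.Agent.N839.VS.TH_conj hdom
    rw [hc, map_zero, hd] at this
    unfold sg
    exact this.symm
  rw [GQ, mir2_eq, rf_zero, hφ, hd, hs, ← hgp]
  unfold GP z1 z2
  unfold ex at hu
  rw [hu]

lemma mem_line {x y t : ℝ} (h : ((x : ℂ) + y * Complex.I) ∈ GG) (hx : 0 ≤ x)
    (ht : t ∈ Icc (0 : ℝ) 1) : (((t * x : ℝ) : ℂ) + y * Complex.I) ∈ GG := by
  obtain ⟨h1, h2, h3, h4⟩ := h
  have hpi := Real.pi_gt_three
  simp only [Complex.add_re, Complex.ofReal_re, Complex.mul_re, Complex.I_re, mul_zero,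
    Complex.ofReal_im, Complex.I_im, mul_one, sub_self, add_zero, Complex.add_im, Complex.mul_im,
    zero_add] at h1 h2 h3 h4
  rw [abs_of_nonneg hx] at h1
  have htx : 0 ≤ t * x := mul_nonneg ht.1 hx
  have htx' : t * x ≤ x := mul_le_of_le_one_left hx ht.2
  refine ⟨?_, ?_, ?_, ?_⟩
  · simp only [Complex.add_re, Complex.ofReal_re, Complex.mul_re, Complex.I_re, mul_zero,
      Complex.ofReal_im, Complex.I_im, mul_one, sub_self, add_zero]
    rw [abs_of_nonneg htx]
    linarith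
  · simpa using h2
  · simpa using h3
  · simp only [Complex.add_re, Complex.ofReal_re, Complex.mul_re, Complex.I_re, mul_zero,
      Complex.ofReal_im, Complex.I_im, mul_one, sub_self, add_zero, Complex.add_im, Complex.mul_im,
      zero_add]
    have hc : Real.cos x ≤ Real.cos (t * x) :=
      Real.cos_le_cos_of_nonneg_of_le_pi htx (by linarith) htx'
    have := Real.cosh_pos y
    have := mul_le_mul_of_nonneg_right hc this.le
    linarith

/-- job AXG/2 -/
theorem mirgx (hG : S_SGP) (hP : S_GPS) : S_MIRGX := by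
  intro z₀ hz₀ hre hs
  have hpi := Real.pi_gt_three
  set x := z₀.re with hx
  set y := z₀.im with hy
  have hz : z₀ = (x : ℂ) + y * Complex.I := (Complex.re_add_im z₀).symm
  have hz₀' := hz₀
  rw [hz] at hz₀'
  have hx33 : x < 33 / 16 := by
    have := hz₀.1
    rw [abs_of_nonneg hre] at this
    exact this
  -- the horizontal segment
  have hb : GQ 0 (rf z₀) = -(π : ℂ) ^ 2 / 2 := by
    have hy0 : (y : ℂ) * Complex.I ∈ GG := by
      have := mem_line hz₀' hre (t := 0) ⟨le_rfl, zero_le_one⟩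
      simpa using this
    rw [← base hG hP hy0]
    have e1 : rf z₀ = y * Complex.I + -(x : ℂ) := by
      rw [hz]
      simp [rf]
    have e2 := seg (a := 0) (b := 0) (a' := y * Complex.I) (b' := -(x : ℂ)) ?_
    · rw [e1, ← e2, add_zero]
    · intro t ht
      have hm := mem_line hz₀' hre ht
      set w : ℂ := ((t * x : ℝ) : ℂ) + y * Complex.I with hw
      have hwre : w.re = t * x := by simp [hw]
      have hwim : w.im = y := by simp [hw]
      have e3 : (y : ℂ) * Complex.I + t * -(x : ℂ) = rf w := by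
        rw [hw]
        simp [rf]
      have e4 : (0 : ℂ) + (t : ℂ) * 0 = 0 := by ring
      have htx : 0 ≤ t * x := mul_nonneg ht.1 hre
      have htx' : t * x ≤ x := mul_le_of_le_one_left hre ht.2
      obtain ⟨r, c, C, hS⟩ := hG w hm
      have hr0 := hS.hr.1
      rw [e3, e4, rf_zero, rf_rf]
      refine ⟨⟨w, r, c, C, hS, by constructor <;> simpa using hr0, mem_ball_self hr0⟩, ?_⟩
      have hs' : Real.exp (w.im / 2) * Real.sin (w.re / 2) < 1 := by
        rw [hwim, hwre]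
        refine lt_of_le_of_lt ?_ hs
        refine mul_le_mul_of_nonneg_left ?_ (Real.exp_pos _).le
        refine Real.sin_le_sin_of_le_of_le_pi_div_two (by linarith) (by linarith) (by linarith)
      obtain ⟨g, hg, hE⟩ := mir_ef hG hm (by rw [hwre]; exact htx) hs'
      have := hE 0 (rf w) (by simpa using hg.le) (by simpa using hg.le)
      rwa [rf_zero, rf_rf] at this
  -- near the point
  obtain ⟨g, hg, hE⟩ := mir_ef hG hz₀ hre hs
  obtain ⟨r, c, C, hS⟩ := hG z₀ hz₀
  have hr0 := hS.hr.1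
  refine ⟨min g (r / 2), lt_min hg (by linarith), fun ψ φ n1 n2 => ?_⟩
  have n1a := n1.trans (min_le_left _ _)
  have n1b := n1.trans (min_le_right _ _)
  have n2a := n2.trans (min_le_left _ _)
  have n2b := n2.trans (min_le_right _ _)
  refine ⟨conj (dst (rf ψ) (rf φ)), hE ψ φ n1a n2a, ?_⟩
  change GQ ψ φ = _
  rw [← hb]
  have e2 := seg (a := 0) (b := ψ) (a' := rf z₀) (b' := φ - rf z₀) ?_
  · rw [zero_add, add_sub_cancel] at e2
    exact e2
  · intro t ht
    have k1 : ‖(0 : ℂ) + t * ψ‖ ≤ ‖ψ‖ := by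
      rw [zero_add, norm_mul, Complex.norm_real, Real.norm_of_nonneg ht.1]
      exact mul_le_of_le_one_left (norm_nonneg _) ht.2
    have k2 : ‖rf z₀ + t * (φ - rf z₀) - rf z₀‖ ≤ ‖φ - rf z₀‖ := by
      rw [add_sub_cancel_left, norm_mul, Complex.norm_real, Real.norm_of_nonneg ht.1]
      exact mul_le_of_le_one_left (norm_nonneg _) ht.2
    refine ⟨⟨z₀, r, c, C, hS, ?_, ?_⟩, hE _ _ (k1.trans n1a) (k2.trans n2a)⟩
    · have k3 : ‖rf ((0 : ℂ) + t * ψ)‖ ≤ r / 2 := by
        rw [norm_rf]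
        exact k1.trans n1b
      constructor
      · exact ((Complex.abs_re_le_norm _).trans k3).trans_lt (by linarith)
      · exact ((Complex.abs_im_le_norm _).trans k3).trans_lt (by linarith)
    · rw [mem_ball, dist_eq_norm]
      have e5 : rf (rf z₀ + t * (φ - rf z₀)) - z₀ = rf (rf z₀ + t * (φ - rf z₀) - rf z₀) := by
        rw [← rf_sub, rf_rf]
      rw [e5, norm_rf]
      exact (k2.trans n2b).trans_lt (by linarith)

end Pool.Agent.N803.AXG
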